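import Pool.Agent.MWFE.StmtsB
import Pool.Agent.Helper10_MWE.BAS

/-!
# Squad MWFE, row BAZ: basic facts about the words equivalent to `ExZ n m R c X`
-/

set_option autoImplicit false

namespace Pool.Agent.MWFE.H1

open Pool.Agent.Helper14_MV Pool.Agent.Helper2_MV Pool.Agent.MVD
open Pool.Agent.MWE (Can XX)
open Pool.Agent.MWE.H10 (count_bw two_blocks one_block mem_bw can_cnt0 can_cnt3)

/-- the blocks of `ExZ` -/
def B0 (n m : ℕ) (c X : List ℕ) : ℕ → List ℕ := fun r =>
  if r = 0 then KZ n (3 * m + 1) X else if r = 1 then 0 :: (c ++ [3]) else [3 * (r - 2) + 1]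

theorem ex_eq (n m : ℕ) (R c X : List ℕ) : ExZ n m R c X = Bw R (B0 n m c X) := rfl

theorem kz_cnt {n : ℕ} (hn : 1 ≤ n) (z : ℕ) {X : List ℕ} (hX : XX X) (a : ℕ) :
    (KZ n z X).count a = (if 0 = a then 1 else 0) + (if 3 = a then 1 else 0) +
      (if z = a then 6 * n else 0) := by
  unfold KZ
  rcases hX with hX | hX
  · rw [hX]
    simp only [List.flatMap_cons, List.flatMap_nil, List.append_nil, tk, lam, List.count_append,
      List.count_cons, List.count_replicate, beq_iff_eq]
    split_ifs <;> omega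
  · rw [hX]
    simp only [List.flatMap_cons, List.flatMap_nil, List.append_nil, tk, lam, List.count_append,
      List.count_cons, List.count_replicate, beq_iff_eq]
    split_ifs <;> omega

theorem kz_mem {n : ℕ} (hn : 1 ≤ n) {z : ℕ} {X : List ℕ} (hX : XX X) {a : ℕ}
    (ha : a ∈ KZ n z X) : a = 0 ∨ a = 3 ∨ a = z := by
  have h := List.count_pos_iff.2 ha
  rw [kz_cnt hn z hX] at h
  by_contra hne
  rw [if_neg (by omega), if_neg (by omega), if_neg (by omega)] at h
  omega

theorem can_z {m : ℕ} {c : List ℕ} (hc : Can m c) : c.count (3 * m + 1) = 0 := by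
  rw [List.count_eq_zero]
  intro h
  rcases hc.lo _ h with ⟨d, hd, hd'⟩ | ⟨_, h6, _⟩ <;> omega

theorem b0_sfr {n m : ℕ} (hn : 1 ≤ n) {c X : List ℕ} (hc : Can m c) (hX : XX X) (r : ℕ) :
    SFr (B0 n m c X r) := by
  intro a ha
  unfold B0 at ha
  by_cases h0 : r = 0
  · rw [if_pos h0] at ha
    rcases kz_mem hn hX ha with h | h | h <;> omega
  · rw [if_neg h0] at ha
    by_cases h1 : r = 1
    · rw [if_pos h1, List.mem_cons, List.mem_append, List.mem_singleton] at ha
      rcases ha with ha | ha | ha
      · omega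
      · rcases hc.lo a ha with ⟨d, _, hd⟩ | ⟨h3, _, _⟩ <;> omega
      · omega
    · rw [if_neg h1, List.mem_singleton] at ha
      omega

theorem b0_x {n m : ℕ} (hn : 1 ≤ n) {c X : List ℕ} (hc : Can m c) (hX : XX X) (q : ℕ) :
    (B0 n m c X q).count 0 = if q = 0 ∨ q = 1 then 1 else 0 := by
  unfold B0
  by_cases h0 : q = 0
  · rw [if_pos h0, if_pos (Or.inl h0), kz_cnt hn _ hX]
    simp
  · rw [if_neg h0]
    by_cases h1 : q = 1
    · rw [if_pos h1, if_pos (Or.inr h1), List.count_cons_self, List.count_append, can_cnt0 hc]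
      rfl
    · rw [if_neg h1, if_neg (by omega), List.count_eq_zero, List.mem_singleton]
      omega

theorem b0_y {n m : ℕ} (hn : 1 ≤ n) {c X : List ℕ} (hc : Can m c) (hX : XX X) (q : ℕ) :
    (B0 n m c X q).count 3 = if q = 0 ∨ q = 1 then 1 else 0 := by
  unfold B0
  by_cases h0 : q = 0
  · rw [if_pos h0, if_pos (Or.inl h0), kz_cnt hn _ hX, if_neg (by omega), if_pos rfl,
      if_neg (by omega)]
  · rw [if_neg h0]
    by_cases h1 : q = 1
    · rw [if_pos h1, if_pos (Or.inr h1), List.count_cons_of_ne (by omega), List.count_append,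
        can_cnt3 hc]
      rfl
    · rw [if_neg h1, if_neg (by omega), List.count_eq_zero, List.mem_singleton]
      omega

theorem b0_l {n m : ℕ} (hn : 1 ≤ n) {c X : List ℕ} (hc : Can m c) (hX : XX X) {d : ℕ} (hd : d < m)
    (q : ℕ) : (B0 n m c X q).count (3 * d + 1) = if q = 1 ∨ q = d + 2 then 1 else 0 := by
  unfold B0
  by_cases h0 : q = 0
  · rw [if_pos h0, if_neg (by omega), kz_cnt hn _ hX, if_neg (by omega), if_neg (by omega),
      if_neg (by omega)]
  · rw [if_neg h0]
    by_cases h1 : q = 1
    · rw [if_pos h1, if_pos (Or.inl h1), List.count_cons_of_ne (by omega), List.count_append,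
        hc.li d hd, List.count_eq_zero.2 (by rw [List.mem_singleton]; omega)]
    · rw [if_neg h1]
      by_cases h2 : q = d + 2
      · rw [if_pos (Or.inr h2)]
        subst h2
        rw [Nat.add_sub_cancel, List.count_singleton_self]
      · rw [if_neg (by omega), List.count_eq_zero, List.mem_singleton]
        omega

theorem b0_z {n m : ℕ} {c X : List ℕ} (hc : Can m c) {q : ℕ} (hq : q < m + 2)
    (hq0 : q ≠ 0) : (B0 n m c X q).count (3 * m + 1) = 0 := by
  unfold B0
  rw [if_neg hq0]
  by_cases h1 : q = 1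
  · rw [if_pos h1, List.count_cons_of_ne (by omega), List.count_append, can_z hc,
      List.count_eq_zero.2 (by rw [List.mem_singleton]; omega)]
  · rw [if_neg h1, List.count_eq_zero, List.mem_singleton]
    omega

theorem b0_o {n m : ℕ} (hn : 1 ≤ n) {c X : List ℕ} (hX : XX X) {q a : ℕ}
    (ha : a % 3 = 0) (ha6 : 6 ≤ a) (hq1 : q ≠ 1) : (B0 n m c X q).count a = 0 := by
  unfold B0
  by_cases h0 : q = 0
  · rw [if_pos h0, kz_cnt hn _ hX, if_neg (by omega), if_neg (by omega), if_neg (by omega)]
  · rw [if_neg h0, if_neg hq1, List.count_eq_zero, List.mem_singleton]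
    omega

theorem fm_rep (w : List ℕ) (a t u : ℕ) (ht : t ∉ w) :
    w.flatMap (fun b => if b = a then [0] else if b = t then [u] else []) =
      List.replicate (w.count a) 0 := by
  induction w with
  | nil => rfl
  | cons b w ih =>
    rw [List.flatMap_cons, ih (fun h => ht (List.mem_cons_of_mem _ h))]
    have hb : b ≠ t := fun h => ht (by rw [h]; exact List.mem_cons_self)
    by_cases h : b = a
    · rw [if_pos h, h, List.count_cons_self, List.replicate_succ]
      rfl
    · rw [if_neg h, if_neg hb, List.count_cons_of_ne h]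
      rfl

theorem sep_bw {P : List ℕ} {B : ℕ → List ℕ} {r : ℕ} (hr : r ∉ P) (hB : ∀ q ∈ P, SFr (B q)) :
    3 * r + 2 ∉ Bw P B := by
  intro h
  obtain ⟨q, hq, h | h⟩ := mem_bw.1 h
  · have := hB q hq _ h
    omega
  · have : r = q := by omega
    rw [this] at hr
    exact hr hq

theorem bw_app (P S : List ℕ) (r : ℕ) (B : ℕ → List ℕ) :
    Bw (P ++ r :: S) B = (Bw P B ++ B r) ++ ((3 * r + 2) :: Bw S B) := by
  unfold Bw
  rw [List.flatMap_append, List.flatMap_cons]
  simp only [List.append_assoc, List.cons_append, List.nil_append]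

/-- projection to a letter and a separator -/
theorem proj (P S : List ℕ) (r : ℕ) (B : ℕ → List ℕ) (e : List ℕ) (a u : ℕ) (ha : a % 3 ≠ 2)
    (hnd : (P ++ r :: S).Nodup) (hB : ∀ q ∈ P ++ r :: S, SFr (B q)) (he : SFr e) :
    (Bw (P ++ r :: S) B ++ e).flatMap
      (fun b => if b = a then [0] else if b = 3 * r + 2 then [u] else []) =
      List.replicate ((Bw P B).count a + (B r).count a) 0 ++
        u :: List.replicate ((Bw S B).count a + e.count a) 0 := by
  have hnd' := List.nodup_append.1 hnd
  have hrP : r ∉ P := fun h => hnd'.2.2 r h r List.mem_cons_self rfl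
  have hrS : r ∉ S := (List.nodup_cons.1 hnd'.2.1).1
  have h1 : 3 * r + 2 ∉ Bw P B ++ B r := by
    rw [List.mem_append, not_or]
    refine ⟨sep_bw hrP fun q hq => hB q (List.mem_append_left _ hq), fun h => ?_⟩
    have := hB r (List.mem_append_right _ List.mem_cons_self) _ h
    omega
  have h2 : 3 * r + 2 ∉ Bw S B ++ e := by
    rw [List.mem_append, not_or]
    refine ⟨sep_bw hrS fun q hq => hB q (List.mem_append_right _ (List.mem_cons_of_mem _ hq)),
      fun h => ?_⟩
    have := he _ h
    omega
  rw [bw_app, List.append_assoc, List.cons_append, List.flatMap_append, List.flatMap_cons,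
    fm_rep _ _ _ _ h1, fm_rep _ _ _ _ h2, if_neg (by omega), if_pos rfl, List.count_append,
    List.count_append]
  rfl

theorem first {p : ℕ → Prop} : ∀ R : List ℕ, (∃ r ∈ R, p r) →
    ∃ P r S, R = P ++ r :: S ∧ p r ∧ ∀ q ∈ P, ¬ p q := by
  intro R
  induction R with
  | nil => rintro ⟨r, hr, -⟩; exact absurd hr List.not_mem_nil
  | cons a R ih =>
    rintro ⟨r, hr, hp⟩
    by_cases ha : p a
    · exact ⟨[], a, R, rfl, ha, fun q hq => absurd hq List.not_mem_nil⟩
    · rcases List.mem_cons.1 hr with h | h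
      · rw [h] at hp
        exact absurd hp ha
      · obtain ⟨P, r', S, e1, e2, e3⟩ := ih ⟨r, h, hp⟩
        refine ⟨a :: P, r', S, by rw [e1]; rfl, e2, fun q hq => ?_⟩
        rcases List.mem_cons.1 hq with h | h
        · rw [h]; exact ha
        · exact e3 q h

theorem bw_zero {P : List ℕ} {B : ℕ → List ℕ} {a : ℕ} (ha : a % 3 ≠ 2)
    (h : ∀ q ∈ P, a ∉ B q) : (Bw P B).count a = 0 := by
  rw [List.count_eq_zero]
  intro h'
  obtain ⟨q, hq, h1 | h1⟩ := mem_bw.1 h'
  · exact h q hq h1
  · omega

/-- two occurrences in different blocks of a letter, all occurrences on the other side in one block -/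
theorem two {β : FIC} (h3 : Iso3 β) {R : List ℕ} (hnd : R.Nodup) {B₀ B : ℕ → List ℕ} {e : List ℕ}
    (hsf : ∀ r ∈ R, SFr (B₀ r)) (hB : ∀ r, SFr (B r)) (he : SFr e)
    (hw : RR β (Bw R B₀) (Bw R B ++ e)) {a q : ℕ} (ha : a % 3 ≠ 2)
    (hq : ∀ r ∈ R, r ≠ q → (B₀ r).count a = 0) (h2 : (Bw R B ++ e).count a = 2) :
    2 ≤ e.count a ∨ ∃ r ∈ R, 2 ≤ (B r).count a := by
  by_contra hcon
  rw [not_or] at hcon
  obtain ⟨hc1, hc2⟩ := hcon
  push Not at hc1 hc2
  rw [List.count_append] at h2
  have hex : ∃ r ∈ R, a ∈ B r := by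
    by_contra hno
    push Not at hno
    rw [bw_zero ha hno] at h2
    omega
  obtain ⟨P, r, S, eR, hr, hP⟩ := first R hex
  subst eR
  have hrm : r ∈ P ++ r :: S := List.mem_append_right _ List.mem_cons_self
  have c1 : (Bw P B).count a = 0 := bw_zero ha hP
  have c2 : (B r).count a = 1 := by
    have := hc2 r hrm
    have := List.count_pos_iff.2 hr
    omega
  have c3 : (Bw S B).count a + e.count a = 1 := by
    rw [bw_app, List.count_append, List.count_append, List.count_cons_of_ne (by omega)] at h2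
    omega
  have g := hw.sub (fun b => if b = a then [0] else if b = 3 * r + 2 then [1] else [])
  have gl := proj P S r B₀ [] a 1 ha hnd hsf (fun c hc => absurd hc List.not_mem_nil)
  rw [List.append_nil] at gl
  rw [gl, proj P S r B e a 1 ha hnd (fun q _ => hB q) he, c1, c2, c3] at g
  have g' := h3 _ g.symm
  rw [List.count_nil, Nat.add_zero] at g'
  have hnd' := List.nodup_append.1 hnd
  -- one of the two exponents vanishes
  by_cases hS : q ∈ S
  · have z1 : (Bw P B₀).count a = 0 := bw_zero ha fun s hs h => by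
      have hsq : s ≠ q := by
        intro h
        rw [h] at hs
        exact hnd'.2.2 q hs q (List.mem_cons_of_mem _ hS) rfl
      exact List.count_eq_zero.1 (hq s (List.mem_append_left _ hs) hsq) h
    have z2 : (B₀ r).count a = 0 := by
      apply hq r hrm
      intro h
      rw [h] at hnd'
      exact (List.nodup_cons.1 hnd'.2.1).1 hS
    rw [z1, z2] at g'
    exact absurd (congrArg List.head? g') (by simp)
  · have z1 : (Bw S B₀).count a = 0 := bw_zero ha fun s hs h => by
      have hsq : s ≠ q := by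
        intro h
        rw [h] at hs
        exact hS hs
      exact List.count_eq_zero.1
        (hq s (List.mem_append_right _ (List.mem_cons_of_mem _ hs)) hsq) h
    rw [z1] at g'
    exact absurd (congrArg List.getLast? g') (by simp)

theorem baz (_h1 : PwlStmt) (h2 : NezStmt) : BazStmt := by
  intro n β m R c X B e hz hc hR h01 hX hB he hw
  have hn2 := hz.n2
  have hn : 1 ≤ n := by omega
  have h3 := hz.i3
  have hnd : R.Nodup := hR.nodup_iff.2 List.nodup_range
  have hmem : ∀ r, r ∈ R ↔ r < m + 2 := fun r => by rw [hR.mem_iff, List.mem_range]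
  have hsf : ∀ r ∈ R, SFr (B0 n m c X r) := fun r _ => b0_sfr hn hc hX r
  rw [ex_eq] at hw
  have hk := fun (u r s : ℕ) hu hr hs hrs hcnt =>
    Pool.Agent.MWD.H11.kp3 β h3 R (B0 n m c X) B e hnd hsf (fun r _ => hB r) he hw u r s hu hr hs
      hrs hcnt
  have h0R : (0 : ℕ) ∈ R := (hmem 0).2 (by omega)
  have h1R : (1 : ℕ) ∈ R := (hmem 1).2 (by omega)
  obtain ⟨kx, kxe⟩ := hk 0 0 1 (by omega) h0R h1R (by omega) (fun q _ => b0_x hn hc hX q)
  obtain ⟨ky, kye⟩ := hk 3 0 1 (by omega) h0R h1R (by omega) (fun q _ => b0_y hn hc hX q)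
  have kz : ∀ d < m, (∀ q ∈ R, (B q).count (3 * d + 1) = if q = 1 ∨ q = d + 2 then 1 else 0) ∧
      e.count (3 * d + 1) = 0 := fun d hd =>
    hk (3 * d + 1) 1 (d + 2) (by omega) h1R ((hmem _).2 (by omega)) (by omega)
      (fun q _ => b0_l hn hc hX hd q)
  -- the letters of the left side
  have hct0 : ∀ a ∈ Bw R (B0 n m c X), a % 3 ≠ 2 → a = 0 ∨ a = 3 ∨ a = 3 * m + 1 ∨ a ∈ c := by
    intro a ha h2
    obtain ⟨r, hr, h⟩ := mem_bw.1 ha
    rcases h with h | h
    · unfold B0 at h
      by_cases h0 : r = 0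
      · rw [if_pos h0] at h
        rcases kz_mem hn hX h with h | h | h <;> omega
      · rw [if_neg h0] at h
        by_cases h1 : r = 1
        · rw [if_pos h1, List.mem_cons, List.mem_append, List.mem_singleton] at h
          rcases h with h | h | h
          · exact Or.inl h
          · exact Or.inr (Or.inr (Or.inr h))
          · exact Or.inr (Or.inl h)
        · rw [if_neg h1, List.mem_singleton] at h
          have hrm := (hmem r).1 hr
          have h5 : c.count a = 1 := by rw [h]; exact hc.li (r - 2) (by omega)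
          exact Or.inr (Or.inr (Or.inr (List.count_pos_iff.1 (by omega))))
    · omega
  have hct : ∀ a ∈ Bw R B ++ e, a % 3 ≠ 2 → a = 0 ∨ a = 3 ∨ a = 3 * m + 1 ∨ a ∈ c := by
    intro a ha h2
    by_contra hne
    exact RR.content h3 hw (fun h => hne (hct0 a h h2)) ha
  -- multiple letters
  have hmu : ∀ a ∈ Bw R B ++ e, a % 3 ≠ 2 → 2 ≤ (Bw R B ++ e).count a := by
    intro a ha h2
    have hge : 2 ≤ (Bw R (B0 n m c X)).count a := by
      rcases hct a ha h2 with h | h | h | h
      · have h4 := two_blocks hnd (B0 n m c X) h0R h1R (by omega) a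
        rw [h] at h4 ⊢
        rw [b0_x hn hc hX, b0_x hn hc hX] at h4
        simpa using h4
      · have h4 := two_blocks hnd (B0 n m c X) h0R h1R (by omega) a
        rw [h] at h4 ⊢
        rw [b0_y hn hc hX, b0_y hn hc hX] at h4
        simpa using h4
      · have h4 := one_block hnd (B0 n m c X) h0R a
        have h5 : B0 n m c X 0 = KZ n (3 * m + 1) X := rfl
        rw [h5, kz_cnt hn _ hX, if_pos h.symm] at h4
        omega
      · rcases hc.lo a h with ⟨d, hd, had⟩ | ⟨_, _, hcc⟩
        · have h4 := two_blocks hnd (B0 n m c X) h1R ((hmem (d + 2)).2 (by omega)) (by omega) a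
          rw [had] at h4 ⊢
          rw [b0_l hn hc hX hd, b0_l hn hc hX hd] at h4
          simpa using h4
        · have h4 := one_block hnd (B0 n m c X) h1R a
          refine le_trans (le_trans hcc ?_) h4
          have h5 : B0 n m c X 1 = 0 :: (c ++ [3]) := rfl
          rw [h5, List.count_cons, List.count_append]
          omega
    by_contra hlt
    have hpos : 0 < (Bw R B ++ e).count a := List.count_pos_iff.2 ha
    have h1 : (Bw R B ++ e).count a = 1 := by omega
    have h4 := hw.filter (fun i => i == a)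
    have h5 : (Bw R B ++ e).filter (fun i => i == a) = [a] := by
      rw [List.filter_beq, h1]
      rfl
    have h6 : (Bw R (B0 n m c X)).filter (fun i => i == a) =
        List.replicate ((Bw R (B0 n m c X)).count a) a := by
      rw [List.filter_beq]
    rw [h5, h6] at h4
    have h7 := Pool.Agent.MVD.H10.lin β h3 [a] _ (List.nodup_singleton a) h4.symm
    have h8 := congrArg List.length h7
    rw [List.length_replicate] at h8
    simp only [List.length_cons, List.length_nil] at h8
    omega
  -- the letter `z` behind block `0`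
  obtain ⟨R1, R2, hR12⟩ := List.append_of_mem h0R
  have hz0 : (Bw R2 B).count (3 * m + 1) + e.count (3 * m + 1) = 0 := by
    by_contra hne
    have hnd2 := hnd
    rw [hR12] at hnd2
    have g := hw.sub (fun b => if b = 3 * m + 1 then [0] else if b = 3 * 0 + 2 then [2] else [])
    have gl := proj R1 R2 0 (B0 n m c X) [] (3 * m + 1) 2 (by omega) hnd2
      (fun q hq => hsf q (by rw [hR12]; exact hq)) (fun c hc => absurd hc List.not_mem_nil)
    rw [List.append_nil] at gl
    rw [hR12, gl, proj R1 R2 0 B e (3 * m + 1) 2 (by omega) hnd2 (fun q _ => hB q) he] at g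
    have hz2 : (Bw R2 (B0 n m c X)).count (3 * m + 1) = 0 := bw_zero (by omega) fun s hs h => by
      have hs0 : s ≠ 0 := by
        intro h
        rw [h] at hs
        exact (List.nodup_cons.1 (List.nodup_append.1 hnd2).2.1).1 hs
      have hsR : s ∈ R := by
        rw [hR12]; exact List.mem_append_right _ (List.mem_cons_of_mem _ hs)
      exact List.count_eq_zero.1 (b0_z hc ((hmem s).1 hsR) hs0) h
    rw [hz2, List.count_nil, Nat.add_zero, List.replicate_zero] at g
    exact h2 n β hz _ _ _ (Nat.one_le_iff_ne_zero.2 hne) g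
  refine ⟨hB, he, ?_, ?_, ?_, ?_, ?_, ?_, ?_, ?_, ?_, ?_, ?_, ?_, hct, hmu, ?_⟩
  · simpa using kx 0 h0R
  · simpa using kx 1 h1R
  · intro r hr h0 h1
    rw [← List.count_eq_zero, kx r hr, if_neg (by omega)]
  · exact List.count_eq_zero.1 kxe
  · simpa using ky 0 h0R
  · simpa using ky 1 h1R
  · intro r hr h0 h1
    rw [← List.count_eq_zero, ky r hr, if_neg (by omega)]
  · exact List.count_eq_zero.1 kye
  · exact fun d hd r hr => (kz d hd).1 r hr
  · exact fun d hd => List.count_eq_zero.1 (kz d hd).2
  · -- z1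
    intro r hr hbf hzr
    obtain ⟨A, C, D, hACD⟩ := hbf
    -- position of `0` is unique
    have hr2 : r ∈ R2 := by
      have hnd2 := hnd
      rw [hACD] at hnd2
      have e1 := (List.nodup_append.1 hnd2)
      have h0A : (0 : ℕ) ∉ A := fun h => e1.2.2 0 h 0 List.mem_cons_self rfl
      have hnd3 := hnd
      rw [hR12] at hnd3
      have e2 := (List.nodup_append.1 hnd3)
      have h0R1 : (0 : ℕ) ∉ R1 := fun h => e2.2.2 0 h 0 List.mem_cons_self rfl
      have heq : A ++ 0 :: (C ++ r :: D) = R1 ++ 0 :: R2 := by rw [← hACD, ← hR12]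
      have hlen : (A ++ 0 :: (C ++ r :: D)).idxOf 0 = (R1 ++ 0 :: R2).idxOf 0 := by rw [heq]
      rw [List.idxOf_append_of_notMem h0A, List.idxOf_append_of_notMem h0R1,
        List.idxOf_cons_self, List.idxOf_cons_self] at hlen
      have e3 := List.append_inj heq (by omega)
      have e4 : C ++ r :: D = R2 := (List.cons.inj e3.2).2
      rw [← e4]
      exact List.mem_append_right _ List.mem_cons_self
    have h5 : 3 * m + 1 ∈ Bw R2 B := mem_bw.2 ⟨r, hr2, Or.inl hzr⟩
    have := List.count_pos_iff.2 h5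
    omega
  · -- ze
    rw [← List.count_eq_zero]
    omega
  · -- hv
    intro a ha ha'
    have ha2 : a % 3 ≠ 2 := by rcases ha' with h | ⟨h, -⟩ <;> omega
    have hge := hmu a ha ha2
    by_cases h4 : 3 ≤ (Bw R B ++ e).count a
    · exact Or.inl h4
    · right
      have h5 : (Bw R B ++ e).count a = 2 := by omega
      rcases ha' with h | ⟨h, h6⟩
      · refine two h3 hnd hsf hB he hw (q := 0) ha2 ?_ h5
        intro r hr hr0
        rw [h]
        exact b0_z hc ((hmem r).1 hr) hr0
      · refine two h3 hnd hsf hB he hw (q := 1) ha2 ?_ h5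
        intro r hr hr1
        exact b0_o hn hX h h6 hr1

end Pool.Agent.MWFE.H1
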